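import Pool.Agent.Helper13.SF.G1

set_option autoImplicit false

/-!
Coloured samples of five vertices: the symmetrised sum and its reduction to representatives.
-/

namespace SF

open KF Finset

/-- The symmetrised sum. -/
def S (h : ℕ → ℤ) (m : Fin 5 → Fin 5 → Fin 5 → Bool) (c : Fin 5 → Fin 6) : ℤ :=
  ∑ s ∈ range 60, ∑ p : Equiv.Perm (Fin 5),
    h (mk (fun i j k => m (p i) (p j) (p k)) (fun i => aF s (c (p i))))

theorem S_perm (h : ℕ → ℤ) (m : Fin 5 → Fin 5 → Fin 5 → Bool) (c : Fin 5 → Fin 6)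
    (q : Equiv.Perm (Fin 5)) :
    S h (fun i j k => m (q i) (q j) (q k)) (fun i => c (q i)) = S h m c := by
  unfold S
  refine sum_congr rfl fun s _ => ?_
  exact Equiv.sum_comp (Equiv.mulLeft q) (fun p : Equiv.Perm (Fin 5) =>
    h (mk (fun i j k => m (p i) (p j) (p k)) (fun i => aF s (c (p i)))))

theorem S_aut (h : ℕ → ℤ) (m : Fin 5 → Fin 5 → Fin 5 → Bool) (c : Fin 5 → Fin 6) {u : ℕ}
    (hu : u < 60) : S h m (fun i => aF u (c i)) = S h m c := by
  unfold S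
  refine sum_nbij' (fun s => amul s u) (fun s => amul s (ainv u)) ?_ ?_ ?_ ?_ ?_
  · intro s hs
    exact mem_range.2 (amul_ok u hu s (mem_range.1 hs)).1
  · intro s hs
    exact mem_range.2 (amul_ok u hu s (mem_range.1 hs)).2.1
  · intro s hs
    exact (amul_ok u hu s (mem_range.1 hs)).2.2.1
  · intro s hs
    exact (amul_ok u hu s (mem_range.1 hs)).2.2.2
  · intro s hs
    simp only [aF_mul s (mem_range.1 hs) u hu]

/-- The orderings as permutations. -/
noncomputable def pE (t : Fin 120) : Equiv.Perm (Fin 5) :=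
  Equiv.ofBijective (pF t.1) (Finite.injective_iff_bijective.1 fun x y h => pF_inj t.1 t.2 x y h)

theorem key_lt {t u : ℕ} (h : t < u) (hu : u < 120) : key (pF t) < key (pF u) := by
  induction u with
  | zero => omega
  | succ u ih =>
    have h1 := pF_key u (by omega)
    rcases Nat.lt_succ_iff_lt_or_eq.1 h with h2 | h2
    · exact (ih h2 (by omega)).trans h1
    · rw [h2]
      exact h1

theorem pE_bij : Function.Bijective pE := by
  rw [Fintype.bijective_iff_injective_and_card]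
  refine ⟨fun t u h => ?_, ?_⟩
  · apply Fin.ext
    have e : pF t.1 = pF u.1 := by
      funext x
      have : pE t x = pE u x := by rw [h]
      exact this
    rcases lt_trichotomy t.1 u.1 with h1 | h1 | h1
    · have := key_lt h1 u.2
      rw [e] at this
      exact absurd this (lt_irrefl _)
    · exact h1
    · have := key_lt h1 t.2
      rw [e] at this
      exact absurd this (lt_irrefl _)
  · rw [Fintype.card_fin, Fintype.card_perm, Fintype.card_fin]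
    rfl

theorem perm_sum (F : (Fin 5 → Fin 5) → ℤ) :
    ∑ p : Equiv.Perm (Fin 5), F (fun s => p s) = ∑ t ∈ range 120, F (pF t) := by
  rw [← pE_bij.sum_comp (fun p : Equiv.Perm (Fin 5) => F (fun s => p s)), Finset.sum_range]
  rfl

theorem S_act (h : ℕ → ℤ) (m : Fin 5 → Fin 5 → Fin 5 → Bool) (c : Fin 5 → Fin 6) {u q : ℕ}
    (hu : u < 60) (hq : q < 120) :
    S h (fun i j k => m (pF q i) (pF q j) (pF q k)) (fun i => aF u (c (pF q i))) = S h m c := by
  have e : (pF q) = (pE ⟨q, hq⟩ : Fin 5 → Fin 5) := rfl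
  rw [S_aut h _ (fun i => c (pF q i)) hu, e, S_perm]

/-- Coloured samples. -/
structure Lk (m : Fin 5 → Fin 5 → Fin 5 → Bool) : Prop where
  s12 : ∀ a b c, m a b c = m b a c
  s23 : ∀ a b c, m a b c = m a c b
  irr : ∀ a b, m a a b = false
  free : ∀ a b c d, m a b c = true → m a b d = true → m a c d = true → False

theorem mkm_bits : ∀ b0 b1 b2 b3 b4 b5 b6 b7 b8 b9 : Bool, ∀ t < 10,
    (b0.toNat + 2 * b1.toNat + 4 * b2.toNat + 8 * b3.toNat + 16 * b4.toNat + 32 * b5.toNat +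
      64 * b6.toNat + 128 * b7.toNat + 256 * b8.toNat + 512 * b9.toNat).testBit t =
    [b0, b1, b2, b3, b4, b5, b6, b7, b8, b9].getD t false := by decide +kernel

theorem mkm_lt (m : Fin 5 → Fin 5 → Fin 5 → Bool) : mkm m < 1024 := by
  have h : ∀ b : Bool, b.toNat < 2 := by decide
  unfold mkm
  have h0 := h (m 0 1 2)
  have h1 := h (m 0 1 3)
  have h2 := h (m 0 2 3)
  have h3 := h (m 1 2 3)
  have h4 := h (m 0 1 4)
  have h5 := h (m 0 2 4)
  have h6 := h (m 1 2 4)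
  have h7 := h (m 0 3 4)
  have h8 := h (m 1 3 4)
  have h9 := h (m 2 3 4)
  omega

theorem mkm_get (m : Fin 5 → Fin 5 → Fin 5 → Bool) (t : ℕ) (ht : t < 10) :
    (mkm m).testBit t = [m 0 1 2, m 0 1 3, m 0 2 3, m 1 2 3, m 0 1 4, m 0 2 4, m 1 2 4, m 0 3 4,
      m 1 3 4, m 2 3 4].getD t false := mkm_bits _ _ _ _ _ _ _ _ _ _ t ht

theorem tx_sym : ∀ i j k : Fin 5, tx i.1 j.1 k.1 = tx j.1 i.1 k.1 ∧
    tx i.1 j.1 k.1 = tx i.1 k.1 j.1 ∧ tx i.1 i.1 j.1 = 15 := by decide +kernel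

theorem tx_tri : (tx 0 1 2 = 0 ∧ tx 0 1 3 = 1 ∧ tx 0 2 3 = 2 ∧ tx 1 2 3 = 3 ∧ tx 0 1 4 = 4) ∧
    tx 0 2 4 = 5 ∧ tx 1 2 4 = 6 ∧ tx 0 3 4 = 7 ∧ tx 1 3 4 = 8 ∧ tx 2 3 4 = 9 := by
  decide +kernel

theorem mB_s12 (μ : ℕ) (i j k : Fin 5) : mB μ i j k = mB μ j i k := by
  unfold mB
  rw [(tx_sym i j k).1]

theorem mB_s23 (μ : ℕ) (i j k : Fin 5) : mB μ i j k = mB μ i k j := by
  unfold mB
  rw [(tx_sym i j k).2.1]

theorem mB_irr {μ : ℕ} (hμ : μ < 1024) (i j : Fin 5) : mB μ i i j = false := by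
  unfold mB
  rw [(tx_sym i j j).2.2]
  exact Nat.testBit_lt_two_pow (lt_trans hμ (by norm_num))

/-- Sorted triples are enough. -/
theorem ext_sorted {m n : Fin 5 → Fin 5 → Fin 5 → Bool}
    (m12 : ∀ a b c, m a b c = m b a c) (m23 : ∀ a b c, m a b c = m a c b)
    (m1 : ∀ a b, m a a b = false)
    (n12 : ∀ a b c, n a b c = n b a c) (n23 : ∀ a b c, n a b c = n a c b)
    (n1 : ∀ a b, n a a b = false) (h : ∀ a b c, a < b → b < c → m a b c = n a b c) : m = n := by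
  funext a b c
  rcases lt_trichotomy a b with h1 | h1 | h1
  · rcases lt_trichotomy b c with h2 | h2 | h2
    · exact h a b c h1 h2
    · subst h2
      rw [m12 a b b, m23 b a b, m1, n12 a b b, n23 b a b, n1]
    · rcases lt_trichotomy a c with h3 | h3 | h3
      · rw [m23 a b c, n23 a b c]
        exact h a c b h3 h2
      · subst h3
        rw [m23 a b a, m1, n23 a b a, n1]
      · rw [m23 a b c, m12 a c b, n23 a b c, n12 a c b]
        exact h c a b h3 h1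
  · subst h1
    rw [m1, n1]
  · rcases lt_trichotomy a c with h2 | h2 | h2
    · rw [m12 a b c, n12 a b c]
      exact h b a c h1 h2
    · subst h2
      rw [m12 a b a, m23 b a a, m12 b a a, m23 a b a, m1, n12 a b a, n23 b a a, n12 b a a,
        n23 a b a, n1]
    · rcases lt_trichotomy b c with h3 | h3 | h3
      · rw [m12 a b c, m23 b a c, n12 a b c, n23 b a c]
        exact h b c a h3 h2
      · subst h3
        rw [m12 a b b, m23 b a b, m1, n12 a b b, n23 b a b, n1]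
      · rw [m12 a b c, m23 b a c, m12 b c a, n12 a b c, n23 b a c, n12 b c a]
        exact h c b a h3 h1

theorem Lk.eq {m : Fin 5 → Fin 5 → Fin 5 → Bool} (hm : Lk m) : mB (mkm m) = m := by
  refine ext_sorted (mB_s12 _) (mB_s23 _) (fun a b => mB_irr (mkm_lt m) a b) hm.s12 hm.s23 hm.irr
    fun a b c hab hbc => ?_
  obtain ⟨⟨t0, t1, t2, t3, t4⟩, t5, t6, t7, t8, t9⟩ := tx_tri
  unfold mB
  fin_cases a <;> fin_cases b <;> fin_cases c <;>
    first
    | exact absurd hab (by decide)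
    | exact absurd hbc (by decide)
    | skip
  · change (mkm m).testBit (tx 0 1 2) = m 0 1 2
    rw [t0, mkm_get m _ (by norm_num)]; rfl
  · change (mkm m).testBit (tx 0 1 3) = m 0 1 3
    rw [t1, mkm_get m _ (by norm_num)]; rfl
  · change (mkm m).testBit (tx 0 1 4) = m 0 1 4
    rw [t4, mkm_get m _ (by norm_num)]; rfl
  · change (mkm m).testBit (tx 0 2 3) = m 0 2 3
    rw [t2, mkm_get m _ (by norm_num)]; rfl
  · change (mkm m).testBit (tx 0 2 4) = m 0 2 4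
    rw [t5, mkm_get m _ (by norm_num)]; rfl
  · change (mkm m).testBit (tx 0 3 4) = m 0 3 4
    rw [t7, mkm_get m _ (by norm_num)]; rfl
  · change (mkm m).testBit (tx 1 2 3) = m 1 2 3
    rw [t3, mkm_get m _ (by norm_num)]; rfl
  · change (mkm m).testBit (tx 1 2 4) = m 1 2 4
    rw [t6, mkm_get m _ (by norm_num)]; rfl
  · change (mkm m).testBit (tx 1 3 4) = m 1 3 4
    rw [t8, mkm_get m _ (by norm_num)]; rfl
  · change (mkm m).testBit (tx 2 3 4) = m 2 3 4
    rw [t9, mkm_get m _ (by norm_num)]; rfl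

theorem Lk.act {m : Fin 5 → Fin 5 → Fin 5 → Bool} (hm : Lk m) (f : Fin 5 → Fin 5) :
    Lk (fun i j k => m (f i) (f j) (f k)) :=
  ⟨fun _ _ _ => hm.s12 _ _ _, fun _ _ _ => hm.s23 _ _ _, fun _ _ => hm.irr _ _,
    fun _ _ _ _ => hm.free _ _ _ _⟩

/-- The list of the conditions on the sets of four vertices. -/
def qd : List (Fin 5 × Fin 5 × Fin 5 × Fin 5) :=
  [(0, 1, 2, 3), (0, 1, 2, 4), (0, 1, 3, 4), (0, 2, 3, 4),
   (1, 0, 2, 3), (1, 0, 2, 4), (1, 0, 3, 4), (1, 2, 3, 4),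
   (2, 0, 1, 3), (2, 0, 1, 4), (2, 0, 3, 4), (2, 1, 3, 4),
   (3, 0, 1, 2), (3, 0, 1, 4), (3, 0, 2, 4), (3, 1, 2, 4),
   (4, 0, 1, 2), (4, 0, 1, 3), (4, 0, 2, 3), (4, 1, 2, 3)]

/-- No forbidden configuration. -/
def vf (μ : ℕ) : Bool := qd.all fun q =>
  !(mB μ q.1 q.2.1 q.2.2.1 && mB μ q.1 q.2.1 q.2.2.2 && mB μ q.1 q.2.2.1 q.2.2.2)

theorem Lk.vf {m : Fin 5 → Fin 5 → Fin 5 → Bool} (hm : Lk m) : vf (mkm m) = true := by
  unfold SF.vf
  rw [hm.eq, List.all_eq_true]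
  intro q _
  cases h1 : m q.1 q.2.1 q.2.2.1
  · rfl
  · cases h2 : m q.1 q.2.1 q.2.2.2
    · rfl
    · cases h3 : m q.1 q.2.2.1 q.2.2.2
      · rfl
      · exact (hm.free _ _ _ _ h1 h2 h3).elim

/-- Colours from a number. -/
def cF (n : ℕ) (i : Fin 5) : Fin 6 := ⟨n / 6 ^ i.1 % 6, Nat.mod_lt _ (by norm_num)⟩

/-- Hints. -/
def hk (n : ℕ) : ℕ := ent HT 17 n % 16
/-- Hints. -/
def hq (n : ℕ) : ℕ := ent HT 17 n / 16 % 128
/-- Hints. -/
def hu (n : ℕ) : ℕ := ent HT 17 n / 2048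

theorem red1' : ∀ a < 36, ∀ b < 216, hu (216 * a + b) < 60 ∧ hq (216 * a + b) < 120 ∧
    hk (216 * a + b) < 10 ∧ ∀ i : Fin 5, aF (hu (216 * a + b))
      (cF (216 * a + b) (pF (hq (216 * a + b)) i)) = cP (hk (216 * a + b)) i := by
  decide +kernel

theorem red1 (n : ℕ) (hn : n < 7776) : hu n < 60 ∧ hq n < 120 ∧ hk n < 10 ∧
    ∀ i : Fin 5, aF (hu n) (cF n (pF (hq n) i)) = cP (hk n) i := by
  have h := red1' (n / 216) (by omega) (n % 216) (Nat.mod_lt _ (by norm_num))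
  rwa [show 216 * (n / 216) + n % 216 = n by omega] at h

theorem cF_eq (c : Fin 5 → Fin 6) :
    cF ((c 0).1 + 6 * (c 1).1 + 36 * (c 2).1 + 216 * (c 3).1 + 1296 * (c 4).1) = c := by
  funext i
  apply Fin.ext
  have h0 := (c 0).2
  have h1 := (c 1).2
  have h2 := (c 2).2
  have h3 := (c 3).2
  have h4 := (c 4).2
  fin_cases i
  · change ((c 0).1 + 6 * (c 1).1 + 36 * (c 2).1 + 216 * (c 3).1 + 1296 * (c 4).1) / 1 % 6 =
      (c 0).1
    omega
  · change ((c 0).1 + 6 * (c 1).1 + 36 * (c 2).1 + 216 * (c 3).1 + 1296 * (c 4).1) / 6 % 6 =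
      (c 1).1
    omega
  · change ((c 0).1 + 6 * (c 1).1 + 36 * (c 2).1 + 216 * (c 3).1 + 1296 * (c 4).1) / 36 % 6 =
      (c 2).1
    omega
  · change ((c 0).1 + 6 * (c 1).1 + 36 * (c 2).1 + 216 * (c 3).1 + 1296 * (c 4).1) / 216 % 6 =
      (c 3).1
    omega
  · change ((c 0).1 + 6 * (c 1).1 + 36 * (c 2).1 + 216 * (c 3).1 + 1296 * (c 4).1) / 1296 % 6 =
      (c 4).1
    omega

theorem cF_lt (c : Fin 5 → Fin 6) :
    (c 0).1 + 6 * (c 1).1 + 36 * (c 2).1 + 216 * (c 3).1 + 1296 * (c 4).1 < 7776 := by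
  have h0 := (c 0).2
  have h1 := (c 1).2
  have h2 := (c 2).2
  have h3 := (c 3).2
  have h4 := (c 4).2
  omega

/-- Reduction of the mask, hints. -/
def r2q (k μ : ℕ) : ℕ := ent R2T 13 (1024 * k + μ) % 128
/-- Reduction of the mask, hints. -/
def r2u (k μ : ℕ) : ℕ := ent R2T 13 (1024 * k + μ) / 128

theorem red2 : ∀ k < 10, ∀ μ < 1024, vf μ = true → r2u k μ < 60 ∧ r2q k μ < 120 ∧
    (∀ i : Fin 5, aF (r2u k μ) (cP k (pF (r2q k μ) i)) = cP k i) ∧
    RK.testBit (1024 * k + mkm (fun i j l => mB μ (pF (r2q k μ) i) (pF (r2q k μ) j)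
      (pF (r2q k μ) l))) = true := by
  decide +kernel

/-- Reduction to the representatives. -/
theorem S_nonneg {h : ℕ → ℤ}
    (H : ∀ k < 10, ∀ μ < 1024, RK.testBit (1024 * k + μ) = true → 0 ≤ S h (mB μ) (cP k))
    {m : Fin 5 → Fin 5 → Fin 5 → Bool} (hm : Lk m) (c : Fin 5 → Fin 6) : 0 ≤ S h m c := by
  obtain ⟨a1, a2, a3, a4⟩ := red1 _ (cF_lt c)
  rw [cF_eq] at a4
  set n := (c 0).1 + 6 * (c 1).1 + 36 * (c 2).1 + 216 * (c 3).1 + 1296 * (c 4).1
  rw [← S_act h m c a1 a2]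
  have e1 : (fun i => aF (hu n) (c (pF (hq n) i))) = cP (hk n) := funext a4
  rw [e1]
  have hm' := hm.act (pF (hq n))
  set m' := fun i j l => m (pF (hq n) i) (pF (hq n) j) (pF (hq n) l) with hm'e
  obtain ⟨b1, b2, b3, b4⟩ := red2 (hk n) a3 (mkm m') (mkm_lt m') hm'.vf
  rw [hm'.eq] at b4
  set q := r2q (hk n) (mkm m')
  set u := r2u (hk n) (mkm m')
  rw [← S_act h m' (cP (hk n)) b1 b2]
  have e2 : (fun i => aF u (cP (hk n) (pF q i))) = cP (hk n) := funext b3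
  rw [e2, ← (hm'.act (pF q)).eq]
  exact H (hk n) a3 _ (mkm_lt _) b4

end SF
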