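import Pool.Agent.Helper13.SF.G3
import Pool.Agent.Helper91.KF.F3

set_option autoImplicit false

/-!
Coloured samples of five vertices: from the sums over the arrangements to the average.
-/

namespace SF

open KF Finset
open KL (col ty3 tau3 fl3 fl4 tc mis3 bad3 wr3 isB)

/-! Codes. -/

theorem mk_lt (m : Fin 5 → Fin 5 → Fin 5 → Bool) (c : Fin 5 → Fin 6) : mk m c < 2 ^ 25 := by
  have h1 := mkm_lt m
  have h2 := mkc_lt c
  unfold mk
  norm_num
  omega

theorem col_mk (m : Fin 5 → Fin 5 → Fin 5 → Bool) (c : Fin 5 → Fin 6) (j : Fin 5) :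
    col (mk m c) j.1 = (c j).1 := by
  have h := mkm_lt m
  have h0 := (c 0).2
  have h1 := (c 1).2
  have h2 := (c 2).2
  have h3 := (c 3).2
  have h4 := (c 4).2
  unfold col mk mkc
  generalize mkm m = x at h
  fin_cases j
  · change (x + 1024 * ((c 0).1 + 8 * (c 1).1 + 64 * (c 2).1 + 512 * (c 3).1 +
      4096 * (c 4).1)) / 1024 % 8 = (c 0).1
    omega
  · change (x + 1024 * ((c 0).1 + 8 * (c 1).1 + 64 * (c 2).1 + 512 * (c 3).1 +
      4096 * (c 4).1)) / 8192 % 8 = (c 1).1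
    omega
  · change (x + 1024 * ((c 0).1 + 8 * (c 1).1 + 64 * (c 2).1 + 512 * (c 3).1 +
      4096 * (c 4).1)) / 65536 % 8 = (c 2).1
    omega
  · change (x + 1024 * ((c 0).1 + 8 * (c 1).1 + 64 * (c 2).1 + 512 * (c 3).1 +
      4096 * (c 4).1)) / 524288 % 8 = (c 3).1
    omega
  · change (x + 1024 * ((c 0).1 + 8 * (c 1).1 + 64 * (c 2).1 + 512 * (c 3).1 +
      4096 * (c 4).1)) / 4194304 % 8 = (c 4).1
    omega

theorem mk_mod (m : Fin 5 → Fin 5 → Fin 5 → Bool) (c : Fin 5 → Fin 6) :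
    mk m c % 1024 = mkm m := by
  have h := mkm_lt m
  unfold mk
  omega

theorem tb_mk (m : Fin 5 → Fin 5 → Fin 5 → Bool) (c : Fin 5 → Fin 6) (t : ℕ) (ht : t < 10) :
    (mk m c).testBit t = (mkm m).testBit t := by
  have h : (mk m c % 2 ^ 10).testBit t = (mk m c).testBit t := by
    rw [Nat.testBit_mod_two_pow]
    simp [ht]
  rw [← h]
  change (mk m c % 1024).testBit t = _
  rw [mk_mod]

section
variable {V : Type} (E : V → V → V → Bool) (κ : V → Fin 6)

theorem cm_mk (φ : Fin 5 → V) :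
    KL.cm E κ φ = mk (fun i j k => E (φ i) (φ j) (φ k)) (fun i => κ (φ i)) := by
  refine KL.ext (KL.cm_lt E κ φ) (mk_lt _ _) ?_ ?_
  · refine Nat.eq_of_testBit_eq fun t => ?_
    by_cases ht : t < 10
    · rw [← KL.testBit_rt _ _ ht, ← KL.testBit_rt _ _ ht, KL.cm_bit E κ φ t ht, tb_mk _ _ t ht,
        mkm_get _ t ht]
      interval_cases t <;> rfl
    · have h1 : KC.rt (KL.cm E κ φ) < 2 ^ t :=
        lt_of_lt_of_le (Nat.mod_lt _ (by norm_num)) (Nat.pow_le_pow_right (by norm_num)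
          (show 10 ≤ t by omega))
      have h2 : KC.rt (mk (fun i j k => E (φ i) (φ j) (φ k)) (fun i => κ (φ i))) < 2 ^ t :=
        lt_of_lt_of_le (Nat.mod_lt _ (by norm_num)) (Nat.pow_le_pow_right (by norm_num)
          (show 10 ≤ t by omega))
      rw [Nat.testBit_lt_two_pow h1, Nat.testBit_lt_two_pow h2]
  · intro j hj
    rw [KL.cm_col E κ φ ⟨j, hj⟩, col_mk _ _ ⟨j, hj⟩]

theorem lk_E (hE : K4m E) (φ : Fin 5 → V) : Lk (fun i j k => E (φ i) (φ j) (φ k)) where
  s12 := fun _ _ _ => hE.s12 _ _ _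
  s23 := fun _ _ _ => hE.s23 _ _ _
  irr := fun _ _ => hE.irr _ _
  free := fun _ _ _ _ h1 h2 h3 => hE.free _ _ _ _ h1 h2 h3

end

/-! The automorphisms. -/

theorem AL_ne : AL ≠ [] := by decide
theorem AL_inj : ∀ b ∈ AL, Function.Injective b := by
  intro b hb
  unfold AL at hb
  rw [List.mem_map] at hb
  obtain ⟨s, hs, rfl⟩ := hb
  exact fun x y h => aF_inj s (List.mem_range.1 hs) x y h
theorem AL_D6 : ∀ b ∈ AL, ∀ i j k, D6 (b i) (b j) (b k) = D6 i j k := by
  intro b hb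
  unfold AL at hb
  rw [List.mem_map] at hb
  obtain ⟨s, hs, rfl⟩ := hb
  exact aF_D6 s (List.mem_range.1 hs)

theorem sum_rlR (f : ℕ → ℝ) : ∀ n : ℕ, ∑ s ∈ range n, f s = ((List.range n).map f).sum
  | 0 => rfl
  | n + 1 => by
    rw [sum_range_succ, List.range_succ, List.map_append, List.sum_append, sum_rlR f n]
    simp

/-- The average from the pointwise inequality. -/
theorem avg {V : Type} [Fintype V] {E : V → V → V → Bool} {w : V → ℝ} (κ : V → Fin 6)
    (hw : Wt w) {h : ℕ → ℤ}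
    (H : ∀ φ : Fin 5 → V, 0 ≤ S h (fun i j k => E (φ i) (φ j) (φ k)) (fun i => κ (φ i))) :
    0 ≤ (AL.map fun a => Ev 5 w (fun φ => (h (KL.cm E (fun v => a (κ v)) φ) : ℝ))).sum := by
  have h1 : 0 ≤ Ev 5 w (fun φ => ((S h (fun i j k => E (φ i) (φ j) (φ k))
      (fun i => κ (φ i)) : ℤ) : ℝ)) :=
    Ev_nonneg 5 w hw.nn fun φ => by exact_mod_cast H φ
  have h2 : Ev 5 w (fun φ => ((S h (fun i j k => E (φ i) (φ j) (φ k))
      (fun i => κ (φ i)) : ℤ) : ℝ)) = ∑ s ∈ range 60, ∑ p : Equiv.Perm (Fin 5),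
      Ev 5 w (fun φ => (h (KL.cm E (fun v => aF s (κ v)) (fun i => φ (p i))) : ℝ)) := by
    have e : (fun φ : Fin 5 → V => ((S h (fun i j k => E (φ i) (φ j) (φ k))
        (fun i => κ (φ i)) : ℤ) : ℝ)) = fun φ => ∑ s ∈ range 60, ∑ p : Equiv.Perm (Fin 5),
        (h (KL.cm E (fun v => aF s (κ v)) (fun i => φ (p i))) : ℝ) := by
      funext φ
      unfold S
      push_cast
      refine sum_congr rfl fun s _ => sum_congr rfl fun p _ => ?_
      rw [cm_mk]
    rw [e, Ev_sum]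
    refine sum_congr rfl fun s _ => ?_
    rw [Ev_sum]
  have h3 : ∀ s : ℕ, ∑ p : Equiv.Perm (Fin 5),
      Ev 5 w (fun φ => (h (KL.cm E (fun v => aF s (κ v)) (fun i => φ (p i))) : ℝ)) =
      120 * Ev 5 w (fun φ => (h (KL.cm E (fun v => aF s (κ v)) φ) : ℝ)) := by
    intro s
    rw [sum_congr rfl fun p _ => Ev_perm p w hw.one
      (fun φ => (h (KL.cm E (fun v => aF s (κ v)) φ) : ℝ))]
    rw [sum_const, card_univ, Fintype.card_perm, Fintype.card_fin, nsmul_eq_mul]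
    norm_num [Nat.factorial]
  rw [h2, sum_congr rfl fun s _ => h3 s, ← mul_sum, sum_rlR] at h1
  unfold AL
  rw [List.map_map]
  have h4 : ((List.range 60).map fun s =>
      Ev 5 w (fun φ => (h (KL.cm E (fun v => aF s (κ v)) φ) : ℝ))).sum =
    ((List.range 60).map ((fun a => Ev 5 w (fun φ => (h (KL.cm E (fun v => a (κ v)) φ) : ℝ))) ∘
      aF)).sum := rfl
  rw [← h4]
  linarith

/-! The integrand. -/

section
variable (C : KL.CT)

/-- The rows. -/
noncomputable def R (N : ℕ) : ℤ := C.g3 N + C.g1 N + C.gD N + C.gB N + C.gK N + C.gI N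

theorem ty3_ge {N : ℕ} (h : col N 0 ≠ 0) : ¬ ty3 N < 6 := by
  unfold ty3 tc
  have : Nat.beq (col N 0) 0 = false := by
    cases h1 : Nat.beq (col N 0) 0
    · rfl
    · exact absurd (Nat.eq_of_beq_eq_true h1) h
  rw [this]
  exact lt_irrefl 6

theorem R_zero (m : Fin 5 → Fin 5 → Fin 5 → Bool) (c : Fin 5 → Fin 6) (h : c 0 ≠ 0) :
    R C (mk m c) = 0 := by
  have h0 : col (mk m c) 0 ≠ 0 := by
    have := col_mk m c 0
    change col (mk m c) 0 = _ at this
    rw [this]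
    intro h2
    exact h (Fin.ext h2)
  have h1 := ty3_ge h0
  unfold R KL.CT.g3 KL.CT.g1 KL.CT.gD KL.CT.gB KL.CT.gK KL.CT.gI
  rw [if_neg fun g => h1 g.1, if_neg fun g => h0 g.1, if_neg h1, if_neg h1, if_neg h1, if_neg h1]
  rfl

theorem beq_fin (a b : Fin 6) : Nat.beq a.1 b.1 = decide (a = b) := by
  revert a b
  decide

theorem beq_aF {s : ℕ} (hs : s < 60) (a b : Fin 6) :
    Nat.beq (aF s a).1 (aF s b).1 = Nat.beq a.1 b.1 := by
  rw [beq_fin, beq_fin]
  by_cases h : a = b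
  · rw [h]
    simp
  · have h2 : aF s a ≠ aF s b := fun g => h (aF_inj s hs _ _ g)
    simp [h, h2]

theorem obj_inv (s : ℕ) (hs : s < 60) (m : Fin 5 → Fin 5 → Fin 5 → Bool) (c : Fin 5 → Fin 6) :
    C.obj (mk m (fun i => aF s (c i))) = C.obj (mk m c) := by
  unfold KL.CT.obj
  have h0 := col_mk m c 0
  have h1 := col_mk m c 1
  have h2 := col_mk m c 2
  have g0 := col_mk m (fun i => aF s (c i)) 0
  have g1 := col_mk m (fun i => aF s (c i)) 1
  have g2 := col_mk m (fun i => aF s (c i)) 2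
  change col (mk m c) 0 = _ at h0
  change col (mk m c) 1 = _ at h1
  change col (mk m c) 2 = _ at h2
  change col (mk m (fun i => aF s (c i))) 0 = _ at g0
  change col (mk m (fun i => aF s (c i))) 1 = _ at g1
  change col (mk m (fun i => aF s (c i))) 2 = _ at g2
  rw [h0, h1, h2, g0, g1, g2, tb_mk _ _ 0 (by norm_num), tb_mk _ _ 0 (by norm_num)]
  unfold mis3 bad3
  rw [KL.isB_D6, KL.isB_D6, aF_D6 s hs, beq_aF hs, beq_aF hs]

theorem S_sub (f g : ℕ → ℤ) (m : Fin 5 → Fin 5 → Fin 5 → Bool) (c : Fin 5 → Fin 6) :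
    S (fun N => f N - g N) m c = S f m c - S g m c := by
  unfold S
  simp only [sum_sub_distrib]

theorem sum_map_sub (f g : ℕ → ℤ) : ∀ l : List ℕ,
    (l.map f).sum - (l.map g).sum = (l.map fun e => f e - g e).sum
  | [] => rfl
  | a :: l => by
    have := sum_map_sub f g l
    simp only [List.map_cons, List.sum_cons]
    linarith

/-- The total over the arrangements. -/
theorem S_G {k : ℕ} (hk : k < 10) (μ : ℕ) : S C.G (mB μ) (cP k) =
    ((XL k).map fun e => 6 * C.obj (cd μ e) - R C (cd μ e)).sum := by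
  have e : C.G = fun N => C.obj N - R C N := rfl
  rw [e, S_sub, S_inv (obj_inv C) hk, S_zero (R_zero C) hk, sum_map_sub]

/-- The finite check suffices. -/
theorem hf_of (H : ∀ k < 10, ∀ μ ∈ MU k,
      0 ≤ ((XL k).map fun e => 6 * C.obj (cd μ e) - R C (cd μ e)).sum) :
    ∀ (V : Type) (_ : Fintype V) (E : V → V → V → Bool) (w : V → ℝ) (κ : V → Fin 6),
      K4m E → Wt w → 0 ≤ (AL.map fun a =>
        Ev 5 w (fun φ => (C.G (KL.cm E (fun v => a (κ v)) φ) : ℝ))).sum := by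
  intro V iV E w κ hE hw
  refine avg κ hw fun φ => ?_
  refine S_nonneg (fun k hk μ hμ hr => ?_) (lk_E E hE φ) _
  rw [S_G C hk]
  exact H k hk μ (mu_ok k hk μ hμ hr)

end

end SF
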